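import Pool.Agent.Helper64.PQ.Goals

set_option autoImplicit false

/-!
C6: the action of the homeomorphisms fixing `p, q, r` on the cusps.
-/

open Topology Filter Set Metric UpperHalfPlane
open scoped MatrixGroups
open Pool.Agent.Helper64.PQ

namespace Pool.Agent.Helper61.PQ

/-- Composition of maps of cusps. -/
theorem csp_comp {F G : ℍ → ℍ} {a b c : SL(2, ℝ)} (h1 : Csp F a b) (h2 : Csp G b c) :
    Csp (fun z => G (F z)) a c := by
  intro h'' hh''
  obtain ⟨h', hh', k2⟩ := h2 h'' hh''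
  obtain ⟨h, hh, k1⟩ := h1 h' hh'
  refine ⟨h, hh, fun z hz => ?_⟩
  have := k2 (b⁻¹ • F (a • z)) (k1 z hz)
  rw [smul_inv_smul] at this
  exact this

/-- **C6.** The action of the homeomorphisms fixing `p, q, r` on the cusps. -/
theorem goalC6.{v} (h0 : GoalC0.{v}) (h3 : GoalC3.{v}) (h4 : GoalC4.{v}) (h5 : GoalC5) :
    GoalC6.{v} := by
  intro X _ _ p q r u hN pt hpt
  have hΓ := h0 X q r u hN
  obtain ⟨hl, hd⟩ := h3 X q r u hN
  have hq : ∀ (f : Fix3 p q r) (x : X), (f : X ≃ₜ X) x = q ↔ x = q := fun f x => by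
    constructor
    · intro h
      exact (f : X ≃ₜ X).injective (h.trans f.2.2.1.symm)
    · rintro rfl
      exact f.2.2.1
  have hr : ∀ (f : Fix3 p q r) (x : X), (f : X ≃ₜ X) x = r ↔ x = r := fun f x => by
    constructor
    · intro h
      exact (f : X ≃ₜ X).injective (h.trans f.2.2.2.symm)
    · rintro rfl
      exact f.2.2.2
  have hex : ∀ f : Fix3 p q r, ∃! F : C(ℍ, ℍ), F pt = pt ∧ ∀ v, u (F v) = (f : X ≃ₜ X) (u v) :=
    fun f => hl (f : X ≃ₜ X) (f : X ≃ₜ X).continuous (hq f) (hr f) pt pt (by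
      rw [hpt]
      exact f.2.1.symm)
  choose F hF hFu using hex
  have hF1 : ∀ f, F f pt = pt := fun f => (hF f).1
  have hF2 : ∀ f v, u (F f v) = (f : X ≃ₜ X) (u v) := fun f => (hF f).2
  have hcomp : ∀ f g, (F f).comp (F g) = F (f * g) := fun f g => by
    refine hFu (f * g) _ ⟨?_, fun v => ?_⟩
    · change F f (F g pt) = pt
      rw [hF1, hF1]
    · change u (F f (F g v)) = (f : X ≃ₜ X) ((g : X ≃ₜ X) (u v))
      rw [hF2, hF2]
  have hone : F 1 = ContinuousMap.id ℍ := by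
    refine (hFu 1 _ ⟨rfl, fun v => rfl⟩).symm
  have hinv : ∀ f v, F f⁻¹ (F f v) = v := fun f v => by
    have h := hcomp f⁻¹ f
    rw [inv_mul_cancel, hone] at h
    exact DFunLike.congr_fun h v
  have hinv' : ∀ f v, F f (F f⁻¹ v) = v := fun f v => by
    have h := hcomp f f⁻¹
    rw [mul_inv_cancel, hone] at h
    exact DFunLike.congr_fun h v
  let Φ : Fix3 p q r → (ℍ ≃ₜ ℍ) := fun f =>
    { toFun := F f
      invFun := F f⁻¹
      left_inv := hinv f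
      right_inv := hinv' f
      continuous_toFun := (F f).continuous
      continuous_invFun := (F f⁻¹).continuous }
  have hC : ∀ (f : Fix3 p q r), ∀ α ∈ deckG u, ∃ β ∈ deckG u, Csp (F f) α β := fun f α hα =>
    h4 X q r u hN (f : X ≃ₜ X) (F f) (f : X ≃ₜ X).continuous (hq f) (hF2 f) α hα
  have hD : ∀ (f : Fix3 p q r), ∀ γ ∈ deckG u, ∃ γ' ∈ deckG u, ∀ v : ℍ,
      F f (γ • v) = γ' • F f v := fun f γ hγ =>
    hd (f : X ≃ₜ X) (F f) (hF2 f) γ hγ
  have hσ : ∀ f : Fix3 p q r, ∃ σ : Equiv.Perm (Cusp (deckG u)), Pres (dd (deckG u)) σ ∧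
      ∀ α β : deckG u, Csp (F f) (α : SL(2, ℝ)) β → σ (mkC α) = mkC β := fun f =>
    h5 (deckG u) hΓ (Φ f) (hD f) (hD f⁻¹) (hC f) (hC f⁻¹)
  choose σ hσ1 hσ2 using hσ
  refine ⟨MonoidHom.mk' σ fun f g => ?_, hσ1, fun f F' hF' hF'2 α β h => ?_⟩
  · refine Equiv.ext fun x => ?_
    obtain ⟨α, rfl⟩ : ∃ α, mkC α = x := Quotient.exists_rep x
    obtain ⟨β, hβ, k1⟩ := hC g α α.2
    obtain ⟨γ, hγ, k2⟩ := hC f β hβ
    have e1 := hσ2 g α ⟨β, hβ⟩ k1
    have e2 := hσ2 f ⟨β, hβ⟩ ⟨γ, hγ⟩ k2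
    have k4 := csp_comp (F := ⇑(F g)) (G := ⇑(F f)) k1 k2
    have e4 : (⇑(F (f * g)) : ℍ → ℍ) = fun z => F f (F g z) := by
      rw [← hcomp]
      rfl
    rw [← e4] at k4
    have e3 := hσ2 (f * g) α ⟨γ, hγ⟩ k4
    change σ (f * g) (mkC α) = σ f (σ g (mkC α))
    rw [e1, e2, e3]
  · have e : F' = F f := hFu f F' ⟨hF', hF'2⟩
    rw [e] at h
    exact hσ2 f α β h

end Pool.Agent.Helper61.PQ
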