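import Pool.Agent.Helper64.PQ.Goals

set_option autoImplicit false

/-!
C7: isotopies moving `p`.
-/

open Topology Filter Set Metric UpperHalfPlane
open scoped MatrixGroups
open Pool.Agent.Helper64.PQ

namespace Pool.Agent.Helper61.PQ

/-- The values of the uniformization. -/
theorem mem_img {X : Type*} [TopologicalSpace X] {q r : X} {u : ℍ → X} (h : NUnif q r u) (z : ℍ) :
    u z ∈ ({q, r}ᶜ : Set X) := h.range ▸ Set.mem_range_self z

/-- The uniformization as a covering of its image. -/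
theorem cov_of {X : Type*} [TopologicalSpace X] {q r : X} {u : ℍ → X} (h : NUnif q r u) :
    IsCoveringMap (fun z : ℍ => (⟨u z, mem_img h z⟩ : ({q, r}ᶜ : Set X))) := by
  have h1 := h.cov.isCoveringMap_restrictPreimage
  have h2 : u ⁻¹' {q, r}ᶜ = Set.univ := Set.eq_univ_of_forall fun z => mem_img h z
  exact h1.comp_homeomorph ((Homeomorph.setCongr h2).trans (Homeomorph.Set.univ ℍ)).symm

/-- Equality of lifts of paths. -/
theorem path_eq {X : Type*} [TopologicalSpace X] {q r : X} {u : ℍ → X} (h : NUnif q r u)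
    {a b : unitInterval → ℍ} (ha : Continuous a) (hb : Continuous b)
    (hab : ∀ t, u (a t) = u (b t)) (h0 : a 0 = b 0) : a = b := by
  refine (cov_of h).eq_of_comp_eq ha hb ?_ 0 h0
  funext t
  exact Subtype.ext (hab t)

theorem T1_mul (δ : SL(2, ℝ)) : (δ⁻¹ * T1 * δ : SL(2, ℝ)) 1 0 = -(δ 1 0) ^ 2 := by
  have e : ((δ⁻¹ * T1 * δ : SL(2, ℝ)) : Matrix (Fin 2) (Fin 2) ℝ) =
      (δ : Matrix (Fin 2) (Fin 2) ℝ).adjugate * !![1, 1; 0, 1] *
        (δ : Matrix (Fin 2) (Fin 2) ℝ) := by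
    rw [Matrix.SpecialLinearGroup.coe_mul, Matrix.SpecialLinearGroup.coe_mul,
      Matrix.SpecialLinearGroup.coe_inv]
    rfl
  rw [e, Matrix.adjugate_fin_two]
  simp [Matrix.mul_apply, Fin.sum_univ_two]
  ring

theorem im_sl (M : SL(2, ℝ)) (z : ℍ) :
    (M • z).im = z.im / Complex.normSq ((M 1 0 : ℂ) * z + (M 1 1 : ℂ)) := by
  have h := UpperHalfPlane.im_smul_eq_div_normSq (Matrix.SpecialLinearGroup.mapGL ℝ M) z
  rw [show M • z = (Matrix.SpecialLinearGroup.mapGL ℝ M : GL (Fin 2) ℝ) • z from rfl, h]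
  simp [UpperHalfPlane.denom]

/-- A matrix which maps a point of the horoball `Im z > 1` into it has a small left lower entry. -/
theorem small {M : SL(2, ℝ)} {z : ℍ} (h1 : 1 < z.im) (h2 : 1 < (M • z).im) : |M 1 0| < 1 := by
  by_contra hc
  have hc : 1 ≤ |M 1 0| := not_lt.1 hc
  rw [im_sl] at h2
  have hn : Complex.normSq ((M 1 0 : ℂ) * z + (M 1 1 : ℂ)) =
      (M 1 0 * z.re + M 1 1) ^ 2 + (M 1 0 * z.im) ^ 2 := by
    rw [Complex.normSq_apply]
    simp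
    ring
  have hM : 1 ≤ (M 1 0) ^ 2 := by
    rw [← sq_abs]
    nlinarith [abs_nonneg (M 1 0)]
  rw [hn] at h2
  have hz : 0 < z.im := z.im_pos
  have hge : z.im ^ 2 ≤ (M 1 0 * z.re + M 1 1) ^ 2 + (M 1 0 * z.im) ^ 2 := by
    have e : (M 1 0 * z.im) ^ 2 = (M 1 0) ^ 2 * z.im ^ 2 := by ring
    rw [e]
    have h3 : 1 * z.im ^ 2 ≤ (M 1 0) ^ 2 * z.im ^ 2 :=
      mul_le_mul_of_nonneg_right hM (sq_nonneg _)
    have h4 := sq_nonneg (M 1 0 * z.re + M 1 1)
    linarith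
  have hpos : 0 < (M 1 0 * z.re + M 1 1) ^ 2 + (M 1 0 * z.im) ^ 2 :=
    lt_of_lt_of_le (by positivity) hge
  rw [lt_div_iff₀ hpos, one_mul] at h2
  nlinarith

theorem im_up {Γ : Subgroup SL(2, ℝ)} (hΓ : Fuchs Γ) {δ : SL(2, ℝ)} (hδ : δ ∈ Γ)
    (h0 : δ 1 0 = 0) (v : ℍ) : (δ⁻¹ • v).im = v.im := by
  have h1 : (δ⁻¹ : SL(2, ℝ)) 1 0 = 0 := by
    rw [Matrix.SpecialLinearGroup.coe_inv, Matrix.adjugate_fin_two]
    simpa using h0
  have h2 : (δ⁻¹ : SL(2, ℝ)) 1 1 = δ 0 0 := by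
    rw [Matrix.SpecialLinearGroup.coe_inv, Matrix.adjugate_fin_two]
    simp
  have h3 := (hΓ.up δ hδ h0).1
  rw [im_sl, h1, h2]
  have h4 : Complex.normSq (((0 : ℝ) : ℂ) * v + (δ 0 0 : ℂ)) = 1 := by
    rw [Complex.ofReal_zero, zero_mul, zero_add, Complex.normSq_ofReal, ← abs_mul_abs_self, h3]
    norm_num
  rw [h4, div_one]

theorem im_T1 (z : ℍ) : (T1 • z).im = z.im := by
  rw [im_sl]
  simp [T1]

/-- **C7.** Isotopies moving `p`. -/
theorem goalC7.{v} (h0 : GoalC0.{v}) (_h3 : GoalC3.{v}) (h4 : GoalC4.{v}) : GoalC7.{v} := by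
  intro X _ _ p q r u hN pt ρ hpt hρ f H H0 H1 Hq Hr c c0 hc w hw α
  have hΓ := h0 X q r u hN
  have huc : Continuous u := continuous_subtype_val.comp (cov_of hN).continuous
  have hmem : ∀ t z, H (t, u z) ∈ ({q, r}ᶜ : Set X) := fun t z => by
    have h := mem_img hN z
    simp only [Set.mem_compl_iff, Set.mem_insert_iff, Set.mem_singleton_iff, not_or] at h ⊢
    exact ⟨fun h' => h.1 ((Hq t _).1 h'), fun h' => h.2 ((Hr t _).1 h')⟩
  have hKc : Continuous fun x : unitInterval × ℍ =>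
      (⟨H (x.1, u x.2), hmem _ _⟩ : ({q, r}ᶜ : Set X)) :=
    Continuous.subtype_mk (H.continuous.comp
      (continuous_fst.prodMk (huc.comp continuous_snd))) _
  let K : C(unitInterval × ℍ, ({q, r}ᶜ : Set X)) := ⟨_, hKc⟩
  have hK0 : ∀ z, K (0, z) = (fun z : ℍ => (⟨u z, mem_img hN z⟩ : ({q, r}ᶜ : Set X)))
      ((ContinuousMap.id ℍ) z) := fun z => Subtype.ext (H0 _)
  obtain ⟨L, hL, hL0⟩ : ∃ L : C(unitInterval × ℍ, ℍ), (∀ t z, u (L (t, z)) = H (t, u z)) ∧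
      ∀ z, L (0, z) = z := by
    refine ⟨(cov_of hN).liftHomotopy K (ContinuousMap.id ℍ) hK0, fun t z => ?_, fun z =>
      (cov_of hN).liftHomotopy_zero K (ContinuousMap.id ℍ) hK0 z⟩
    have h := congr_fun ((cov_of hN).liftHomotopy_lifts K (ContinuousMap.id ℍ) hK0) (t, z)
    exact congrArg Subtype.val h
  have hLc : ∀ z, Continuous fun t => L (t, z) := fun z =>
    L.continuous.comp (continuous_id.prodMk continuous_const)
  have hLγ : ∀ γ ∈ deckG u, ∀ t z, L (t, γ • z) = γ • L (t, z) := by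
    intro γ hγ t z
    have h := path_eq hN (a := fun t => L (t, γ • z)) (b := fun t => γ • L (t, z))
      (hLc _) ((hLc z).const_smul γ) (fun t => by
        have e1 : u (γ • L (t, z)) = u (L (t, z)) := hγ _
        have e2 : u (γ • z) = u z := hγ _
        rw [e1, hL, hL, e2]) (by
        rw [hL0, hL0])
    exact congrFun h t
  have hL1 : L (1, pt) = (w : SL(2, ℝ)) • pt := by
    have h := path_eq hN (a := fun t => L (t, pt)) (b := c) (hLc _) c.continuous (fun t => by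
      rw [hL, hc, hpt]) (by
        rw [hL0, c0])
    rw [← hw]
    exact congrFun h 1
  have hGc : Continuous fun z => L (1, z) :=
    L.continuous.comp (continuous_const.prodMk continuous_id)
  have hG : ∀ v, u (L (1, v)) = (f : X ≃ₜ X) (u v) := fun v => (hL 1 v).trans (H1 _)
  have hq : ∀ x : X, (f : X ≃ₜ X) x = q ↔ x = q := fun x => by
    constructor
    · intro h
      exact (f : X ≃ₜ X).injective (h.trans f.2.2.1.symm)
    · rintro rfl
      exact f.2.2.1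
  obtain ⟨δ, hδ, hδc⟩ := h4 X q r u hN (f : X ≃ₜ X) ⟨_, hGc⟩ (f : X ≃ₜ X).continuous hq hG 1
    (one_mem _)
  -- the deck transformation is a translation
  have hδ0 : δ 1 0 = 0 := by
    obtain ⟨h, hh, hz⟩ := hδc 1 le_rfl
    obtain ⟨z, hzi⟩ : ∃ z : ℍ, h < z.im := by
      refine ⟨⟨⟨0, h + 1⟩, ?_⟩, ?_⟩
      · change 0 < h + 1
        linarith
      · change h < h + 1
        linarith
    have k1 := hz z hzi
    have k2 := hz (T1 • z) (by rw [im_T1]; exact hzi)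
    rw [one_smul] at k1 k2
    change 1 < (δ⁻¹ • L (1, z)).im at k1
    change 1 < (δ⁻¹ • L (1, T1 • z)).im at k2
    have e : δ⁻¹ • L (1, T1 • z) = (δ⁻¹ * T1 * δ) • (δ⁻¹ • L (1, z)) := by
      rw [hLγ T1 hΓ.T 1 z, mul_smul, mul_smul, smul_inv_smul]
    rw [e] at k2
    have hM : δ⁻¹ * T1 * δ ∈ deckG u := mul_mem (mul_mem (inv_mem hδ) hΓ.T) hδ
    have k3 := small k1 k2
    rcases hΓ.c _ hM with h' | h'
    · rw [T1_mul] at h'
      have h5 : (δ 1 0) ^ 2 = 0 := by linarith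
      exact pow_eq_zero_iff (two_ne_zero) |>.1 h5
    · linarith
  -- the lift
  have hFc : Continuous fun z => (w : SL(2, ℝ))⁻¹ • L (1, z) := hGc.const_smul _
  have hcsp : Csp (fun z => (w : SL(2, ℝ))⁻¹ • L (1, z)) (α : SL(2, ℝ))
      ((w⁻¹ * α : deckG u) : SL(2, ℝ)) := by
    intro h' hh'
    obtain ⟨h, hh, hz⟩ := hδc h' hh'
    refine ⟨h, hh, fun z hzi => ?_⟩
    have k1 := hz z hzi
    rw [one_smul, im_up hΓ hδ hδ0] at k1
    have e : ((w⁻¹ * α : deckG u) : SL(2, ℝ))⁻¹ • ((w : SL(2, ℝ))⁻¹ • L (1, (α : SL(2, ℝ)) • z)) =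
        L (1, z) := by
      rw [hLγ α α.2 1 z, ← mul_smul (w : SL(2, ℝ))⁻¹ (α : SL(2, ℝ)) (L (1, z))]
      exact inv_smul_smul ((w : SL(2, ℝ))⁻¹ * (α : SL(2, ℝ))) (L (1, z))
    change h' < (((w⁻¹ * α : deckG u) : SL(2, ℝ))⁻¹ •
      ((w : SL(2, ℝ))⁻¹ • L (1, (α : SL(2, ℝ)) • z))).im
    rw [e]
    exact k1
  refine hρ.2 f ⟨_, hFc⟩ ?_ (fun v => ?_) α (w⁻¹ * α) hcsp
  · change (w : SL(2, ℝ))⁻¹ • L (1, pt) = pt
    rw [hL1, inv_smul_smul]
  · change u ((w : SL(2, ℝ))⁻¹ • L (1, v)) = _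
    have e : u ((w : SL(2, ℝ))⁻¹ • L (1, v)) = u (L (1, v)) := (inv_mem w.2 : _ ∈ deckG u) _
    rw [e, hG]

end Pool.Agent.Helper61.PQ
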